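import Pool.Agent.MWFE.StmtsA

/-!
Squad MWFE, row BPX: a factor with one letter `v`, all other letters heavy.
-/

set_option autoImplicit false

namespace Pool.Agent.MWFE.H43

open Pool.Agent.Helper14_MV Pool.Agent.Helper2_MV Pool.Agent.MVD
open Pool.Agent.MWE (Can XX fxy dxy dx dy up cp L4 pr Xs xl isx Fs nd nr)
open Pool.Agent.MWGR (cb)

theorem rr_trans {β : FIC} {a b c : List ℕ} (h1 : RR β a b) (h2 : RR β b c) : RR β a c :=
  β.trans h1 h2

/-- heavy letters are multiple -/
theorem hw_two {w : List ℕ} {h : ℕ} (H : Hw w h) : 2 ≤ w.count h := by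
  rcases H with H | ⟨a, G, b, e, -, H2⟩
  · omega
  · rw [e, List.count_append, List.count_append]
    omega

/-- `Hw` is kept when a factor of multiple letters is rearranged -/
theorem hw_perm {P Y Y' Q : List ℕ} {h : ℕ} (hp : Y.Perm Y')
    (hm : ∀ a ∈ Y, 2 ≤ (P ++ (Y ++ Q)).count a) (H : Hw (P ++ (Y ++ Q)) h) :
    Hw (P ++ (Y' ++ Q)) h := by
  have hc : ∀ a, (P ++ (Y' ++ Q)).count a = (P ++ (Y ++ Q)).count a := by
    intro a
    simp only [List.count_append, hp.count_eq a]
  have hY' : ∀ a ∈ Y', a ∈ Y := fun a ha => hp.mem_iff.mpr ha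
  rcases H with H | ⟨a, G, b, e, hM, H2⟩
  · left
    rw [hc]
    exact H
  · right
    have mk : ∀ a' G' b' : List ℕ, P ++ (Y' ++ Q) = a' ++ (G' ++ b') →
        (∀ d ∈ G', d ∈ G ∨ d ∈ Y) → G.count h ≤ G'.count h →
        ∃ a G b : List ℕ, P ++ (Y' ++ Q) = a ++ (G ++ b) ∧ Mult G (P ++ (Y' ++ Q)) ∧
          2 ≤ G.count h := by
      intro a' G' b' e1 e2 e3
      refine ⟨a', G', b', e1, ?_, le_trans H2 e3⟩
      intro d hd
      rw [hc]
      rcases e2 d hd with h1 | h1
      · exact hM d h1
      · exact hm d h1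
    rcases List.append_eq_append_iff.mp e with ⟨c, e1, e2⟩ | ⟨c, e1, e2⟩
    · -- a = P ++ c, Y ++ Q = c ++ (G ++ b)
      rcases List.append_eq_append_iff.mp e2 with ⟨d, e3, e4⟩ | ⟨d, e3, e4⟩
      · -- c = Y ++ d, Q = d ++ (G ++ b)
        refine mk (P ++ (Y' ++ d)) G b ?_ ?_ le_rfl
        · rw [e4]
          simp only [List.append_assoc]
        · intro x hx
          exact Or.inl hx
      · -- Y = c ++ d, G ++ b = d ++ Q
        rcases List.append_eq_append_iff.mp e4 with ⟨f, e5, e6⟩ | ⟨f, e5, e6⟩
        · -- d = G ++ f, b = f ++ Q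
          refine mk P Y' Q rfl ?_ ?_
          · intro x hx
            exact Or.inr (hY' x hx)
          · rw [← hp.count_eq h, e3, e5, List.count_append, List.count_append]
            omega
        · -- G = d ++ f, Q = f ++ b
          refine mk P (Y' ++ f) b ?_ ?_ ?_
          · rw [e6]
            simp only [List.append_assoc]
          · intro x hx
            rcases List.mem_append.mp hx with hx | hx
            · exact Or.inr (hY' x hx)
            · left
              rw [e5]
              exact List.mem_append_right _ hx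
          · rw [List.count_append, ← hp.count_eq h, e3, e5, List.count_append, List.count_append]
            omega
    · -- P = a ++ c, G ++ b = c ++ (Y ++ Q)
      rcases List.append_eq_append_iff.mp e2 with ⟨d, e3, e4⟩ | ⟨d, e3, e4⟩
      · -- c = G ++ d, b = d ++ (Y ++ Q)
        refine mk a G (d ++ (Y' ++ Q)) ?_ ?_ le_rfl
        · rw [e1, e3]
          simp only [List.append_assoc]
        · intro x hx
          exact Or.inl hx
      · -- G = c ++ d, Y ++ Q = d ++ b
        rcases List.append_eq_append_iff.mp e4 with ⟨f, e5, e6⟩ | ⟨f, e5, e6⟩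
        · -- d = Y ++ f, Q = f ++ b
          refine mk a (c ++ (Y' ++ f)) b ?_ ?_ ?_
          · rw [e1, e6]
            simp only [List.append_assoc]
          · intro x hx
            rcases List.mem_append.mp hx with hx | hx
            · left
              rw [e3]
              exact List.mem_append_left _ hx
            · rcases List.mem_append.mp hx with hx | hx
              · exact Or.inr (hY' x hx)
              · left
                rw [e3, e5]
                exact List.mem_append_right _ (List.mem_append_right _ hx)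
          · rw [e3, e5]
            simp only [List.count_append, hp.count_eq h]
            omega
        · -- Y = d ++ f, b = f ++ Q
          refine mk a (c ++ Y') Q ?_ ?_ ?_
          · rw [e1]
            simp only [List.append_assoc]
          · intro x hx
            rcases List.mem_append.mp hx with hx | hx
            · left
              rw [e3]
              exact List.mem_append_left _ hx
            · exact Or.inr (hY' x hx)
          · rw [List.count_append, ← hp.count_eq h, e3, e5, List.count_append, List.count_append]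
            omega

/-- the exchange of `h` and `v` -/
theorem swp (hlcf : LcfStmt) {n : ℕ} {β : FIC} (H : Hz n β) (P Q X Z : List ℕ) (h v : ℕ)
    (G a b : List ℕ) (hG : P = a ++ (G ++ b) ∨ Q = a ++ (G ++ b)) (hv : v ∈ G) (hh : h ∈ G)
    (hM : Mult G (P ++ (X ++ h :: v :: Z) ++ Q)) :
    RR β (P ++ (X ++ h :: v :: Z) ++ Q) (P ++ (X ++ v :: h :: Z) ++ Q) := by
  rcases hG with hG | hG
  · have h1 := (hlcf β H.ff H.zz a (b ++ X) G (Z ++ Q) h v hh hv).2
    have e1 : ∀ s t : ℕ, P ++ (X ++ s :: t :: Z) ++ Q =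
        a ++ (G ++ (b ++ X ++ s :: t :: (Z ++ Q))) := by
      intro s t
      rw [hG]
      simp
    rw [e1, e1]
    apply h1
    intro d hd
    rw [← e1]
    exact hM d hd
  · have h1 := (hlcf β H.ff H.zz (P ++ X) (Z ++ a) G b h v hh hv).1
    have e1 : ∀ s t : ℕ, P ++ (X ++ s :: t :: Z) ++ Q =
        P ++ X ++ s :: t :: (Z ++ a ++ (G ++ b)) := by
      intro s t
      rw [hG]
      simp
    rw [e1, e1]
    apply h1
    intro d hd
    rw [← e1]
    exact hM d hd

/-- all letters `h` are moved to the right of `v` -/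
theorem mvr (hlcf : LcfStmt) {n : ℕ} {β : FIC} (H : Hz n β) (P Q X : List ℕ) (h v : ℕ)
    (G a b : List ℕ) (hG : P = a ++ (G ++ b) ∨ Q = a ++ (G ++ b)) (hv : v ∈ G) (hh : h ∈ G) :
    ∀ (i j : ℕ) (Z : List ℕ),
      Mult G (P ++ (X ++ (List.replicate i h ++ v :: (List.replicate j h ++ Z))) ++ Q) →
      RR β (P ++ (X ++ (List.replicate i h ++ v :: (List.replicate j h ++ Z))) ++ Q)
        (P ++ (X ++ v :: (List.replicate (i + j) h ++ Z)) ++ Q) := by
  intro i
  induction i with
  | zero =>
    intro j Z _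
    rw [List.replicate_zero, List.nil_append, Nat.zero_add]
    exact RR.refl _
  | succ i ih =>
    intro j Z hM
    have e1 : List.replicate (i + 1) h ++ v :: (List.replicate j h ++ Z) =
        List.replicate i h ++ h :: v :: (List.replicate j h ++ Z) := by
      rw [List.replicate_succ']
      simp
    have e2 : List.replicate i h ++ v :: (List.replicate (j + 1) h ++ Z) =
        List.replicate i h ++ v :: h :: (List.replicate j h ++ Z) := by
      rw [List.replicate_succ]
      simp
    have e3 : X ++ (List.replicate i h ++ h :: v :: (List.replicate j h ++ Z)) =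
        (X ++ List.replicate i h) ++ h :: v :: (List.replicate j h ++ Z) := by
      simp
    have e4 : X ++ (List.replicate i h ++ v :: h :: (List.replicate j h ++ Z)) =
        (X ++ List.replicate i h) ++ v :: h :: (List.replicate j h ++ Z) := by
      simp
    rw [e1, e3] at hM ⊢
    have h1 := swp hlcf H P Q (X ++ List.replicate i h) (List.replicate j h ++ Z) h v G a b hG hv hh hM
    refine rr_trans h1 ?_
    rw [← e4, ← e2]
    have e5 : i + 1 + j = i + (j + 1) := by omega
    rw [e5]
    apply ih
    rw [e2, e4]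
    intro d hd
    have := hM d hd
    refine le_of_le_of_eq this ?_
    apply List.Perm.count_eq
    refine List.Perm.append_right _ (List.Perm.append_left _ (List.Perm.append_left _ ?_))
    exact List.Perm.swap _ _ _

theorem hw_ctx {P Q A A' B : List ℕ} {v h : ℕ} (hp : A.Perm A')
    (hm : ∀ a ∈ A, 2 ≤ (P ++ (A ++ v :: B) ++ Q).count a)
    (H : Hw (P ++ (A ++ v :: B) ++ Q) h) : Hw (P ++ (A' ++ v :: B) ++ Q) h := by
  have e : ∀ A : List ℕ, P ++ (A ++ v :: B) ++ Q = P ++ (A ++ (v :: B ++ Q)) := by
    intro A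
    simp
  rw [e] at H ⊢
  apply hw_perm hp _ H
  intro a ha
  have := hm a ha
  rw [e] at this
  exact this

theorem hw_all {P Q Y1 Y2 Z1 Z2 : List ℕ} {v h : ℕ} (hp : (Y1 ++ Y2).Perm (Z1 ++ Z2))
    (hv2 : 2 ≤ (P ++ (Y1 ++ v :: Y2) ++ Q).count v)
    (hm : ∀ a ∈ Y1 ++ Y2, Hw (P ++ (Y1 ++ v :: Y2) ++ Q) a)
    (H : Hw (P ++ (Y1 ++ v :: Y2) ++ Q) h) : Hw (P ++ (Z1 ++ v :: Z2) ++ Q) h := by
  have e : ∀ A : List ℕ, P ++ A ++ Q = P ++ (A ++ Q) := by
    intro A
    simp
  rw [e] at H ⊢
  have hp2 : (Y1 ++ v :: Y2).Perm (Z1 ++ v :: Z2) := by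
    refine List.perm_middle.trans ((List.Perm.cons _ hp).trans List.perm_middle.symm)
  apply hw_perm hp2 _ H
  intro a ha
  rw [← e]
  have ha' := List.perm_middle.mem_iff.mp ha
  rcases List.mem_cons.mp ha' with h1 | h1
  · rw [h1]
    exact hv2
  · exact hw_two (hm a h1)

/-- the word only matters up to rearrangement for counts -/
theorem cnt_all {P Q Y1 Y2 Z1 Z2 : List ℕ} {v : ℕ} (hp : (Y1 ++ Y2).Perm (Z1 ++ Z2)) (a : ℕ) :
    (P ++ (Z1 ++ v :: Z2) ++ Q).count a = (P ++ (Y1 ++ v :: Y2) ++ Q).count a := by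
  have h1 := hp.count_eq a
  simp only [List.count_append, List.count_cons] at h1 ⊢
  omega

/-- `h` to the ends next to `v` -/
theorem toends (hphx : PhxStmt) {n : ℕ} {β : FIC} (H : Hz n β) (P Q Y1 Y2 : List ℕ) (v h : ℕ)
    (hv2 : 2 ≤ (P ++ (Y1 ++ v :: Y2) ++ Q).count v)
    (hm : ∀ a ∈ Y1 ++ Y2, Hw (P ++ (Y1 ++ v :: Y2) ++ Q) a) (Z1 Z2 : List ℕ)
    (h1 : Y1.Perm Z1) (h2 : Y2.Perm Z2) :
    RR β (P ++ (Y1 ++ v :: Y2) ++ Q) (P ++ (Z1 ++ v :: Z2) ++ Q) := by
  have s1 : RR β (P ++ (Y1 ++ v :: Y2) ++ Q) (P ++ (Z1 ++ v :: Y2) ++ Q) := by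
    have e : ∀ A : List ℕ, P ++ (A ++ v :: Y2) ++ Q = P ++ (A ++ (v :: Y2 ++ Q)) := by
      intro A
      simp
    rw [e, e]
    apply hphx n β H _ _ _ _ h1
    intro a ha
    rw [← e]
    exact hm a (List.mem_append_left _ ha)
  have s2 : RR β (P ++ (Z1 ++ v :: Y2) ++ Q) (P ++ (Z1 ++ v :: Z2) ++ Q) := by
    have e : ∀ A : List ℕ, P ++ (Z1 ++ v :: A) ++ Q = (P ++ (Z1 ++ [v])) ++ (A ++ Q) := by
      intro A
      simp
    rw [e, e]
    apply hphx n β H _ _ _ _ h2
    intro a ha
    rw [← e]
    exact hw_all (List.Perm.append_right _ h1) hv2 hm (hm a (List.mem_append_right _ ha))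
  exact rr_trans s1 s2

theorem filt (Y : List ℕ) (h : ℕ) (a : ℕ) :
    (Y.filter (fun x => decide (x ≠ h))).count a = if a = h then 0 else Y.count a := by
  by_cases e : a = h
  · rw [if_pos e, List.count_eq_zero]
    intro hc
    have := (List.mem_filter.mp hc).2
    simp [e] at this
  · rw [if_neg e]
    apply List.count_filter
    simp [e]

/-- one letter -/
theorem step (hlcf : LcfStmt) (hfil : FilStmt) (hphx : PhxStmt) {n : ℕ} {β : FIC} (H : Hz n β)
    (P Q Y1 Y2 Y1' Y2' : List ℕ) (v h : ℕ) (hhv : h ≠ v)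
    (hv2 : 2 ≤ (P ++ (Y1 ++ v :: Y2) ++ Q).count v)
    (hm : ∀ a ∈ Y1 ++ Y2, Hw (P ++ (Y1 ++ v :: Y2) ++ Q) a)
    (hp : (Y1 ++ Y2).Perm (Y1' ++ Y2'))
    (hc : (∃ G a b : List ℕ, (P = a ++ (G ++ b) ∨ Q = a ++ (G ++ b)) ∧
        Mult G (P ++ (Y1 ++ v :: Y2) ++ Q) ∧ v ∈ G ∧ h ∈ G) ∨
      (Y1.count h ≡ Y1'.count h [MOD n] ∧
        (1 ≤ Y1.count h ∧ 1 ≤ Y2.count h ∧ 1 ≤ Y1'.count h ∧ 1 ≤ Y2'.count h))) :
    ∃ Z1 Z2 : List ℕ, RR β (P ++ (Y1 ++ v :: Y2) ++ Q) (P ++ (Z1 ++ v :: Z2) ++ Q) ∧
      (Y1 ++ Y2).Perm (Z1 ++ Z2) ∧ Z1.count h = Y1'.count h ∧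
      ∀ a, a ≠ h → Z1.count a = Y1.count a := by
  set X := Y1.filter (fun x => decide (x ≠ h)) with hX
  set Z := Y2.filter (fun x => decide (x ≠ h)) with hZ
  have hcnt := hp.count_eq h
  rw [List.count_append, List.count_append] at hcnt
  have p1 : Y1.Perm (X ++ List.replicate (Y1.count h) h) := by
    rw [List.perm_iff_count]
    intro a
    rw [List.count_append, filt, List.count_replicate]
    by_cases e : a = h
    · simp [e]
    · simp [e, Ne.symm e]
  have p2 : Y2.Perm (List.replicate (Y2.count h) h ++ Z) := by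
    rw [List.perm_iff_count]
    intro a
    rw [List.count_append, filt, List.count_replicate]
    by_cases e : a = h
    · simp [e]
    · simp [e, Ne.symm e]
  have r1 := toends hphx H P Q Y1 Y2 v h hv2 hm _ _ p1 p2
  have hpm : (Y1 ++ Y2).Perm ((X ++ List.replicate (Y1.count h) h) ++
      (List.replicate (Y2.count h) h ++ Z)) := List.Perm.append p1 p2
  have ew : ∀ i j : ℕ, P ++ ((X ++ List.replicate i h) ++ v :: (List.replicate j h ++ Z)) ++ Q =
      P ++ (X ++ (List.replicate i h ++ v :: (List.replicate j h ++ Z))) ++ Q := by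
    intro i j
    simp
  have hpm' : ((X ++ List.replicate (Y1.count h) h) ++
      (List.replicate (Y2.count h) h ++ Z)).Perm ((X ++ List.replicate (Y1'.count h) h) ++
      (List.replicate (Y2'.count h) h ++ Z)) := by
    rw [List.perm_iff_count]
    intro a
    simp only [List.count_append, List.count_replicate]
    by_cases e : a = h
    · simp only [e, beq_self_eq_true, if_true]
      omega
    · simp [Ne.symm e]
  refine ⟨X ++ List.replicate (Y1'.count h) h, List.replicate (Y2'.count h) h ++ Z, ?_,
    hpm.trans hpm', ?_, ?_⟩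
  · refine rr_trans r1 ?_
    rcases hc with ⟨G, a, b, hG, hM, hv, hh⟩ | ⟨hmod, c1, c2, c3, c4⟩
    · rw [ew, ew]
      have m1 : Mult G (P ++ (X ++ (List.replicate (Y1.count h) h ++ v ::
          (List.replicate (Y2.count h) h ++ Z))) ++ Q) := by
        intro d hd
        rw [← ew, cnt_all hpm]
        exact hM d hd
      have m2 : Mult G (P ++ (X ++ (List.replicate (Y1'.count h) h ++ v ::
          (List.replicate (Y2'.count h) h ++ Z))) ++ Q) := by
        intro d hd
        rw [← ew, cnt_all (hpm.trans hpm')]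
        exact hM d hd
      have t1 := mvr hlcf H P Q X h v G a b hG hv hh _ _ Z m1
      have t2 := mvr hlcf H P Q X h v G a b hG hv hh _ _ Z m2
      rw [hcnt] at t1
      exact rr_trans t1 t2.symm
    · have ew2 : ∀ i j : ℕ, P ++ ((X ++ List.replicate i h) ++ v :: (List.replicate j h ++ Z)) ++ Q
          = (P ++ X) ++ (List.replicate i h ++ v :: (List.replicate j h ++ (Z ++ Q))) := by
        intro i j
        simp
      rw [ew2, ew2]
      refine hfil n β H (P ++ X) (Z ++ Q) h v _ _ _ _ (Ne.symm hhv) hmod ?_ c1 c2 c3 c4 ?_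
      · apply Nat.ModEq.add_left_cancel hmod
        rw [hcnt]
      · have := hv2
        rw [← cnt_all hpm, ew2] at this
        simp only [List.count_append, List.count_cons, List.count_replicate] at this ⊢
        simp only [beq_iff_eq, hhv, if_false] at this ⊢
        omega
  · rw [List.count_append, filt, if_pos rfl, List.count_replicate_self, Nat.zero_add]
  · intro a ha
    rw [List.count_append, filt, if_neg ha, List.count_replicate]
    simp [Ne.symm ha]

theorem bpx (hlcf : LcfStmt) (hfil : FilStmt) (_hhhx : HhxStmt) (hphx : PhxStmt) : BpxStmt := by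
  intro n β H P Q Y1 Y2 Y1' Y2' v hv1 hv2 hvc hp hm hc
  have key : ∀ (L : List ℕ) (Z1 Z2 : List ℕ), (Y1 ++ Y2).Perm (Z1 ++ Z2) →
      (∀ h, h ∉ L → Z1.count h = Y1'.count h) → (∀ h ∈ L, Z1.count h = Y1.count h) →
      (∀ h ∈ L, h ∈ Y1 ++ Y2) → L.Nodup →
      RR β (P ++ (Z1 ++ v :: Z2) ++ Q) (P ++ (Y1' ++ v :: Y2') ++ Q) := by
    intro L
    induction L with
    | nil =>
      intro Z1 Z2 hpz hz1 _ _ _
      have hz : Z1.Perm Y1' := by
        rw [List.perm_iff_count]
        intro a
        exact hz1 a (List.not_mem_nil)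
      have hz2 : Z2.Perm Y2' := by
        rw [List.perm_iff_count]
        intro a
        have e1 := (hpz.symm.trans hp).count_eq a
        rw [List.count_append, List.count_append, hz.count_eq a] at e1
        omega
      apply toends hphx H P Q Z1 Z2 v v _ _ _ _ hz hz2
      · rw [cnt_all hpz]
        exact hvc
      · intro a ha
        exact hw_all hpz hvc hm (hm a (hpz.mem_iff.mpr ha))
    | cons h L ih =>
      intro Z1 Z2 hpz hz1 hz2 hmem hnd
      have hhY := hmem h List.mem_cons_self
      have hnL : h ∉ L := (List.nodup_cons.mp hnd).1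
      have hndL := (List.nodup_cons.mp hnd).2
      have hhv : h ≠ v := by
        intro e
        rw [e] at hhY
        rcases List.mem_append.mp hhY with h1 | h1
        · exact hv1 h1
        · exact hv2 h1
      by_cases heq : Z1.count h = Y1'.count h
      · apply ih Z1 Z2 hpz _ _ _ hndL
        · intro k hk
          by_cases hkh : k = h
          · rw [hkh]
            exact heq
          · exact hz1 k (by
              intro hc
              rcases List.mem_cons.mp hc with h1 | h1
              · exact hkh h1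
              · exact hk h1)
        · intro k hk
          exact hz2 k (List.mem_cons_of_mem _ hk)
        · intro k hk
          exact hmem k (List.mem_cons_of_mem _ hk)
      · have hz1h : Z1.count h = Y1.count h := hz2 h List.mem_cons_self
        have hz2h : Z2.count h = Y2.count h := by
          have e1 := hpz.count_eq h
          rw [List.count_append, List.count_append] at e1
          omega
        have hvz : 2 ≤ (P ++ (Z1 ++ v :: Z2) ++ Q).count v := by
          rw [cnt_all hpz]
          exact hvc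
        have hmz : ∀ a ∈ Z1 ++ Z2, Hw (P ++ (Z1 ++ v :: Z2) ++ Q) a := by
          intro a ha
          exact hw_all hpz hvc hm (hm a (hpz.mem_iff.mpr ha))
        have hcz : (∃ G a b : List ℕ, (P = a ++ (G ++ b) ∨ Q = a ++ (G ++ b)) ∧
            Mult G (P ++ (Z1 ++ v :: Z2) ++ Q) ∧ v ∈ G ∧ h ∈ G) ∨
            (Z1.count h ≡ Y1'.count h [MOD n] ∧
            (1 ≤ Z1.count h ∧ 1 ≤ Z2.count h ∧ 1 ≤ Y1'.count h ∧ 1 ≤ Y2'.count h)) := by
          rcases hc h hhY with ⟨G, a, b, hG, hM, h1, h2⟩ | ⟨h1, h2 | h2⟩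
          · left
            refine ⟨G, a, b, hG, ?_, h1, h2⟩
            intro d hd
            rw [cnt_all hpz]
            exact hM d hd
          · exfalso
            exact heq (hz1h.trans h2)
          · right
            rw [hz1h, hz2h]
            exact ⟨h1, h2⟩
        obtain ⟨W1, W2, r1, r2, r3, r4⟩ := step hlcf hfil hphx H P Q Z1 Z2 Y1' Y2' v h hhv hvz hmz
          (hpz.symm.trans hp) hcz
        refine rr_trans r1 ?_
        apply ih W1 W2 (hpz.trans r2) _ _ _ hndL
        · intro k hk
          by_cases hkh : k = h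
          · rw [hkh]
            exact r3
          · rw [r4 k hkh]
            exact hz1 k (by
              intro hc
              rcases List.mem_cons.mp hc with h1 | h1
              · exact hkh h1
              · exact hk h1)
        · intro k hk
          have hkh : k ≠ h := fun e => hnL (e ▸ hk)
          rw [r4 k hkh]
          exact hz2 k (List.mem_cons_of_mem _ hk)
        · intro k hk
          exact hmem k (List.mem_cons_of_mem _ hk)
  apply key (Y1 ++ Y2).dedup Y1 Y2 (List.Perm.refl _) _ _ _ (List.nodup_dedup _)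
  · intro h hh
    rw [List.mem_dedup] at hh
    have h1 : h ∉ Y1' ++ Y2' := fun hc => hh (hp.mem_iff.mpr hc)
    rw [List.count_eq_zero.mpr (fun hc => hh (List.mem_append_left _ hc)),
      List.count_eq_zero.mpr (fun hc => h1 (List.mem_append_left _ hc))]
  · intro h _
    rfl
  · intro h hh
    exact List.mem_dedup.mp hh

end Pool.Agent.MWFE.H43
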